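import Pool.Agent.Work.MP_202a65_gt.Asm

/-!
MP_202a65_gt, full (positive) answer to Q1.

For every n ≥ 1, every separable metrizable space X in which every point has a neighbourhood
homeomorphic to the universal Menger compactum mu^n has the complete invariance property with
respect to homeomorphisms: every nonempty closed subset A of X is the fixed point set of a
homeomorphism of X onto itself. In particular every stable mu^n-manifold has CIPH.

The definitions (skelI, subcube, stage, Menger, IsMengerManifold, HasCIPH) are in
Pool/Agent/Work/MP_202a65_gt/TDefs.lean.
-/

namespace Pool.Agent.Results.MP_202a65_gt.MengerCIPH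

/-- Every mu^n-manifold, n ≥ 1, has CIPH. -/
theorem result.{u} (n : ℕ) (hn : 1 ≤ n) (X : Type u) [TopologicalSpace X]
    [TopologicalSpace.MetrizableSpace X] [TopologicalSpace.SeparableSpace X]
    (hX : M202.IsMengerManifold n X) : M202.HasCIPH X :=
  M202.all_Target.{u} n hn X hX

end Pool.Agent.Results.MP_202a65_gt.MengerCIPH
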